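import Pool.Agent.Helper68.GX.All

/-!
# Galois representations for `π` from Galois representations for the products `π ⊠ τ_i`

Let `π` be an algebraic cuspidal automorphic representation of `GL_n` over the number field `K` (`K = ℚ` in
Q1), let `A v` be a matrix in the class of the Satake parameter of `π_v ⊗ |det|^((1-n)/2)`, transported
to the topological field `Ω` (an algebraic closure of `ℚ_ℓ` in Q1), and let `τ_i`, `i` in a set `I`, be
continuous representations of the absolute Galois group of `K`, of any dimensions `m_i`, of finite or of
infinite image (for instance the Galois representations of regular algebraic cuspidal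
representations `σ_i`).  Suppose that for every `i` there is a Galois representation `R_i` attached to
the functorial product `π ⊠ τ_i`: it is continuous, semisimple, of dimension `n m_i`, and at the places `v` outside
of a set `S_i` of density zero it is unramified and the eigenvalues of Frobenius at `v` under `R_i` are the
products of those of `A v` and of those of Frobenius under `τ_i`.

Theorem.  Suppose that the absolutely irreducible ones among the `τ_i` cut out enough fields: for every
finite Galois extension `M` of `K` there is an absolutely irreducible `τ_j` whose kernel field meets `M`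
in `K` only (for example: infinitely many of the `τ_j` are irreducible Artin representations with
linearly disjoint kernel fields).  Then there is exactly one continuous semisimple `n`-dimensional
representation `ρ` of the absolute Galois group of `K` such that `R_i` is `ρ ⊗ τ_i` for ALL `i` in `I`.
It is unramified outside of the intersection of the `S_i`, and it corresponds to `π_v` at every `v` such that
for every `j = 1, …, n` the trace of the `j`-th power of Frobenius at `v` is not zero under some
`τ_i` with `v` outside of `S_i`; for instance if `v` splits completely in the kernel field of one `τ_i`.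

Nothing like this holds for a single `i`: the `A v` can be changed at the places where the characteristic
polynomial of Frobenius under `τ_i` is a polynomial in `X ^ d`, `d ≥ 2`, without changing the product.

Idea of the proof.  By Chebotarev's theorem `tr R_i tr τ_j = tr R_j tr τ_i`.  Fix the pair `(R₁, τ₁)` and put
`V = R₁ ⊗ τ₁^∨`.  Spanning is an open condition: if the kernel field of `τ₂` is disjoint from a certain
finite extension then `V` is spanned by the image of the kernel `H` of `τ₂`.  On `H` the traces of
`R₂ ⊗ τ₁` and `m₂ R₁` agree, hence linear relations between the operators `V (h)` hold for the `R₂ (h)` (a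
nilpotency argument, no semisimplicity of tensor products is used), and `R₂` on `H` extends to a
representation `b` of the whole group, `b (g)` a linear function of `V (g)`.  Then `R₂ = b c` with a
representation `c`, trivial on `H`, commuting with `b`, and `tr (b (g) c (q)) tr τ₁ (g) = tr R₁ (g) tr τ₂ (q)`
for all pairs `g, q`.  Another nilpotency argument shows that `c` factors through the matrix algebra
spanned by `τ₂`; its matrix units cut out `ρ`.  Three pairs and a far away fourth one give the independence
of the pairs.

Authors of the parts (swarm GX): helpers 8 (family), 12 (matrix units), 24 (openness), 29 (relations), 36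
(key identity), 52 (two pairs), 68, 89 (extension), 96 (semisimplicity).  Chebotarev's density theorem,
Clifford's theorem and the nondegeneracy of the trace form are from the library.
-/

set_option autoImplicit false

namespace Pool.Agent.Results.MP_ef641d_nt.CancellationOfFactors

open NumberField IsDedekindDomain Matrix
open scoped Kronecker
open Pool.Agent.W401.Cheb (GK IsFrob IsInert)

/-- `W` is stable under `ρ` -/
def Stable {Γ k : Type} [Group Γ] [Field k] {n : ℕ} (ρ : Γ →* GL (Fin n) k)
    (W : Submodule k (Fin n → k)) : Prop :=
  ∀ g, ∀ w ∈ W, (ρ g : Matrix (Fin n) (Fin n) k) *ᵥ w ∈ W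

/-- `ρ` is semisimple: every stable subspace has a stable complement -/
def Semisimple {Γ k : Type} [Group Γ] [Field k] {n : ℕ} (ρ : Γ →* GL (Fin n) k) : Prop :=
  ∀ W, Stable ρ W → ∃ W', Stable ρ W' ∧ IsCompl W W'

/-- `τ` is absolutely irreducible: its image spans the space of all matrices (for an algebraically closed
field this is irreducibility, by Burnside's theorem) -/
def AbsIrreducible {Γ k : Type} [Group Γ] [Field k] {m : ℕ} (τ : Γ →* GL (Fin m) k) : Prop :=
  ∀ X : Matrix (Fin m) (Fin m) k,
    X ∈ Submodule.span k (Set.range fun g => (τ g : Matrix (Fin m) (Fin m) k))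

variable {K : Type} [Field K] [NumberField K]

/-- the field cut out by `τ`: the elements of the algebraic closure fixed by the kernel of `τ` -/
noncomputable def kernelField {Ω : Type} [Field Ω] {m : ℕ} (τ : GK K →* GL (Fin m) Ω) :
    IntermediateField K (AlgebraicClosure K) := IntermediateField.fixedField τ.ker

/-- the set `T` of finite places has density zero: the number of its elements of norm at most `N`, divided by
the number of prime numbers up to `N`, tends to zero -/
def DensityZero (T : Set (HeightOneSpectrum (𝓞 K))) : Prop :=
  Filter.Tendsto (fun N : ℕ => ({v : HeightOneSpectrum (𝓞 K) | Ideal.absNorm v.asIdeal ≤ N ∧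
    v ∈ T}.ncard : ℝ) / (Nat.primeCounting N : ℝ)) Filter.atTop (nhds 0)

/-- The `n m`-dimensional representation `R` of the absolute Galois group of `K` is attached to the product of
the system of the parameters `A v` and of the `m`-dimensional representation `τ`: `R` is continuous and
semisimple, `τ` is continuous, and at every finite place `v` of `K` outside of the set `S` of density zero the
inertia elements act trivially under both, and the geometric Frobenius elements (the inverses of the `σ` with
`IsFrob v σ`) have under `R` the characteristic polynomial of the Kronecker product of `A v` and their image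
under `τ`. -/
structure AttachedToProduct {Ω : Type} [Field Ω] [TopologicalSpace Ω] {n m : ℕ}
    (A : HeightOneSpectrum (𝓞 K) → Matrix (Fin n) (Fin n) Ω) (S : Set (HeightOneSpectrum (𝓞 K)))
    (τ : GK K →* GL (Fin m) Ω) (R : GK K →* GL (Fin (n * m)) Ω) : Prop where
  pos : 0 < m
  density_zero : DensityZero S
  continuous_left : Continuous τ
  continuous_right : Continuous R
  semisimple : Semisimple R
  inert : ∀ v, v ∉ S → ∀ σ, IsInert v σ → τ σ = 1 ∧ R σ = 1
  frob : ∀ v, v ∉ S → ∀ σ, IsFrob v σ →
    (R σ⁻¹ : Matrix (Fin (n * m)) (Fin (n * m)) Ω).charpoly =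
      (A v ⊗ₖ (τ σ⁻¹ : Matrix (Fin m) (Fin m) Ω)).charpoly

/-- **Cancellation of factors.** -/
theorem result (K : Type) [Field K] [NumberField K] (n : ℕ) (Ω : Type) [Field Ω] [CharZero Ω]
    [TopologicalSpace Ω] [IsTopologicalRing Ω] [T2Space Ω]
    (A : HeightOneSpectrum (𝓞 K) → Matrix (Fin n) (Fin n) Ω)
    (I : Type) (m : I → ℕ) (S : I → Set (HeightOneSpectrum (𝓞 K)))
    (τ : ∀ i, GK K →* GL (Fin (m i)) Ω) (R : ∀ i, GK K →* GL (Fin (n * m i)) Ω)
    (hR : ∀ i, AttachedToProduct A (S i) (τ i) (R i))
    (hdisj : ∀ M : IntermediateField K (AlgebraicClosure K), FiniteDimensional K M →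
      IsGalois K M → ∃ j, AbsIrreducible (τ j) ∧ kernelField (τ j) ⊓ M = ⊥) :
    ∃ ρ : GK K →* GL (Fin n) Ω, Continuous ρ ∧ Semisimple ρ ∧
      -- every `R i` is the product of `ρ` and `τ i`
      (∀ i g, (R i g : Matrix (Fin (n * m i)) (Fin (n * m i)) Ω).charpoly =
        ((ρ g : Matrix (Fin n) (Fin n) Ω) ⊗ₖ (τ i g : Matrix (Fin (m i)) (Fin (m i)) Ω)).charpoly) ∧
      -- `ρ` is unramified outside of the intersection of the `S i`
      (∀ i v, v ∉ S i → ∀ σ, IsInert v σ → ρ σ = 1) ∧
      -- `ρ` corresponds to `A v`
      (∀ v σ, IsFrob v σ → (∀ j : ℕ, 0 < j → j ≤ n → ∃ i, v ∉ S i ∧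
          ((τ i σ⁻¹ : Matrix (Fin (m i)) (Fin (m i)) Ω) ^ j).trace ≠ 0) →
        (ρ σ⁻¹ : Matrix (Fin n) (Fin n) Ω).charpoly = (A v).charpoly) ∧
      -- uniqueness
      ∀ ρ' : GK K →* GL (Fin n) Ω, Continuous ρ' →
        (∀ i g, (R i g : Matrix (Fin (n * m i)) (Fin (n * m i)) Ω).charpoly =
          ((ρ' g : Matrix (Fin n) (Fin n) Ω) ⊗ₖ
            (τ i g : Matrix (Fin (m i)) (Fin (m i)) Ω)).charpoly) →
        ∀ g, (ρ' g : Matrix (Fin n) (Fin n) Ω).charpoly = (ρ g : Matrix (Fin n) (Fin n) Ω).charpoly := by
  refine Pool.Agent.Helper68.GX.main (A := A) (S := S) (τ := τ) (R := R)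
    (fun i => ⟨(hR i).pos, (hR i).density_zero, (hR i).continuous_left, (hR i).continuous_right,
      (hR i).semisimple, (hR i).inert, (hR i).frob⟩) {j | AbsIrreducible (τ j)} ?_ ?_
  · intro j hj
    exact (Submodule.eq_top_iff').2 hj
  · intro M h1 h2
    obtain ⟨j, hj, h3⟩ := hdisj M h1 h2
    exact ⟨j, hj, h3⟩

end Pool.Agent.Results.MP_ef641d_nt.CancellationOfFactors
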