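import Pool.Agent.Helper12.TR.Field

/-!
# Torsion patching: Galois representations from congruences modulo powers of `ℓ` over varying fields

Let `π` be an algebraic cuspidal automorphic representation of `GL_n` over the number field `K` (`K = ℚ` in
Q1), and let `P v` be the characteristic polynomial of the Satake parameter of `π_v ⊗ |det|^((1-n)/2)`, with
coefficients in the ring of integers `O_E` of a finite extension `E` of `ℚ_ℓ`.

All constructions of `ρ_π` outside the range of étale cohomology (weight one forms and other forms with
irregular weights, torsion classes in the cohomology of locally symmetric spaces) first give representations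
modulo powers `ℓ^m`, over a Hecke algebra which depends on `m`, often only after a base change to an extension
`F_m` of `K` and outside an auxiliary set of places which depends on `m`.  To pass to the limit one uses that
these representations (or their pseudo-representations) are compatible for varying `m` and that their
ramification is bounded independently of `m`.

We prove that nothing of this kind is needed.  For every natural number `m` let `F_m` be a finite extension of
`K` (not necessarily normal), `R_m` a commutative ring (not necessarily noetherian, local, flat or complete) in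
which `ℓ` is nilpotent, `φ_m : O_E → R_m` a ring homomorphism, and `ρ_m : Gal(K̄/F_m) → GL_n(R_m)` a
representation with open kernel.  Suppose that

* for every finite Galois extension `M` of `K` one has `F_m ∩ M = K` for all large `m`, and for every `k` one
  has `φ_m(ℓ^k) ≠ 0` for all large `m`;
* the set of all places `v` of `K` at which `ρ_m` does not correspond to the image of `P v` in `R_m[X]` has
  upper density at most `c_m`, and `2 n² (c_m + c_m') [F_m : K] [F_m' : K] < 1` for all `m` and `m'`.

There is no condition which relates `ρ_m` to `ρ_m'`, and no condition on the places where `ρ_m` is ramified.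
Then there is a continuous semisimple `ρ : Gal(K̄/K) → GL_n(ℚbar_ℓ)` which is unramified at `v` with
characteristic polynomial `P v` of the geometric Frobenius elements, as soon as for infinitely many `m` the
representation `ρ_m` corresponds to `P v` and (for the elements considered) `F_m` has a place of degree one
above `v`.  More generally `ρ` has every characteristic polynomial, and satisfies every polynomial relation,
with coefficients in `O_E` which holds for infinitely many `ρ_m`; this is a way to see that the images of the
Frobenius elements are semisimple, as Q1 demands.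

If `F_m = K` for all `m` this allows exceptional sets of density `c_m < 1 / (4 n²)`; if the `c_m` are zero (for
instance if the exceptional sets are finite) the degrees of the `F_m` are arbitrary.  Small primes `ℓ ≤ n`
are not excluded.

Idea of the proof: Let `W` be an ultrafilter on an index set with a map `f` to the natural numbers which
tends to infinity.  The product of the rings `R_(f j)` has a quotient which is a domain `D` such that limits
along `W` of sequences in the compact ring `O_E` are preserved.  By Burnside's theorem two representations of
dimension `n` over a field have the same trace if they have the same trace on some translate of each family of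
`2 n²` elements, and by Chebotarev's theorem this can be applied to two homomorphisms to algebraically closed
fields and, on the intersections of the Galois groups of the `F_m`, to the representations for `m` and `m'`.  So
the traces of all sequences have well defined limits, they are in `O_E` because otherwise they could be moved by an
endomorphism of the algebraically closed field, and they only depend on the limits of the sequences in
`Gal(K̄/K)`; for this the limits over `m` and `m'` are taken one after the other.  This replaces the
boundedness of the ramification.  It gives a trace function on `Gal(K̄/K)`, which is continuous, and one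
descends the representation to `ℚbar_ℓ`.
-/

set_option autoImplicit false

namespace Pool.Agent.Results.MP_ef641d_nt.TorsionPatching

open NumberField IsDedekindDomain Polynomial Filter Matrix
open Pool.Agent.W401.Cheb (GK IsFrob IsInert dens)

/-- `W` is stable under `ρ` -/
def Stable {Γ k : Type} [Group Γ] [Field k] {n : ℕ} (ρ : Γ →* GL (Fin n) k) (W : Submodule k (Fin n → k)) : Prop :=
  ∀ g, ∀ w ∈ W, (ρ g : Matrix (Fin n) (Fin n) k) *ᵥ w ∈ W

/-- `ρ` is semisimple: every stable subspace has a stable complement -/
def Semisimple {Γ k : Type} [Group Γ] [Field k] {n : ℕ} (ρ : Γ →* GL (Fin n) k) : Prop :=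
  ∀ W, Stable ρ W → ∃ W', Stable ρ W' ∧ IsCompl W W'

/-- the ring of integers of the extension `E` of `ℚ_ℓ`: the elements of `E` of absolute value at most one -/
def Integers {ℓ : ℕ} [Fact ℓ.Prime] (E : IntermediateField ℚ_[ℓ] (PadicAlgCl ℓ)) : Subring (PadicAlgCl ℓ) where
  carrier := {x | x ∈ E ∧ ‖x‖ ≤ 1}
  mul_mem' := (Pool.Agent.Helper12.TR.OO E).mul_mem'
  one_mem' := (Pool.Agent.Helper12.TR.OO E).one_mem'
  add_mem' := (Pool.Agent.Helper12.TR.OO E).add_mem'
  zero_mem' := (Pool.Agent.Helper12.TR.OO E).zero_mem'
  neg_mem' := (Pool.Agent.Helper12.TR.OO E).neg_mem'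

variable {K : Type} [Field K] [NumberField K]

/-- The representation `ρ` of the subgroup `H` of the absolute Galois group of `K` corresponds to the polynomial
`Q` at the finite place `v` of `K`: the elements of `H` which are inertia elements at `v` act trivially, and the
elements of `H` which are geometric Frobenius elements at `v` have the characteristic polynomial `Q`.
If `H` is the group of the field `F`, it concerns the places of `F` of degree one over `K`. -/
def CorrespondsAt {R : Type} [CommRing R] {n : ℕ} (H : Subgroup (GK K)) (ρ : H →* GL (Fin n) R)
    (v : HeightOneSpectrum (𝓞 K)) (Q : R[X]) : Prop :=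
  (∀ τ : H, IsInert v (τ : GK K) → ρ τ = 1) ∧
    ∀ σ : H, IsFrob v ((σ : GK K)⁻¹) → (ρ σ : Matrix (Fin n) (Fin n) R).charpoly = Q

/-- the upper density of the set `T` of places is at most `c` -/
def UpperDensityLe (T : Set (HeightOneSpectrum (𝓞 K))) (c : ℝ) : Prop :=
  ∀ ε : ℝ, 0 < ε → ∀ᶠ N in atTop, dens (fun v => v ∈ T) N ≤ c + ε

/-- **Torsion patching.** -/
theorem result (K : Type) [Field K] [NumberField K] (ℓ : ℕ) [Fact ℓ.Prime] (n : ℕ)
    (E : IntermediateField ℚ_[ℓ] (PadicAlgCl ℓ)) [FiniteDimensional ℚ_[ℓ] E]
    (P : HeightOneSpectrum (𝓞 K) → (Integers E)[X])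
    (F : ℕ → IntermediateField K (AlgebraicClosure K)) (hfin : ∀ m, FiniteDimensional K (F m))
    (hF : ∀ M : IntermediateField K (AlgebraicClosure K), FiniteDimensional K M → IsGalois K M →
      ∀ᶠ m in atTop, F m ⊓ M = ⊥)
    (R : ℕ → Type) [∀ m, CommRing (R m)] (hR : ∀ m, IsNilpotent (ℓ : R m))
    (φ : ∀ m, Integers E →+* R m) (hφ : ∀ k : ℕ, ∀ᶠ m in atTop, φ m ((ℓ : Integers E) ^ k) ≠ 0)
    (ρ : ∀ m, (F m).fixingSubgroup →* GL (Fin n) (R m))
    (hρ : ∀ m, IsOpen ((ρ m).ker : Set (F m).fixingSubgroup))
    (c : ℕ → ℝ)
    (hT : ∀ m, UpperDensityLe
      {v | ¬ CorrespondsAt (F m).fixingSubgroup (ρ m) v ((P v).map (φ m))} (c m))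
    (hc : ∀ m m', 2 * (n : ℝ) ^ 2 * (c m + c m') *
      (Module.finrank K (F m) * Module.finrank K (F m')) < 1) :
    ∃ r : GK K →* GL (Fin n) (PadicAlgCl ℓ), Continuous r ∧ Semisimple r ∧
      (∀ (v : HeightOneSpectrum (𝓞 K)) (σ : GK K),
        (∃ᶠ m in atTop, CorrespondsAt (F m).fixingSubgroup (ρ m) v ((P v).map (φ m)) ∧
          ∃ g : GK K, g⁻¹ * σ * g ∈ (F m).fixingSubgroup) →
        (IsInert v σ → r σ = 1) ∧
        (IsFrob v σ → (r σ⁻¹ : Matrix (Fin n) (Fin n) (PadicAlgCl ℓ)).charpoly =
          (P v).map (Integers E).subtype)) ∧
      (∀ (σ : GK K) (Q : (Integers E)[X]),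
        (∃ᶠ m in atTop, ∃ (g : GK K) (hg : g⁻¹ * σ * g ∈ (F m).fixingSubgroup),
          (ρ m ⟨g⁻¹ * σ * g, hg⟩ : Matrix (Fin n) (Fin n) (R m)).charpoly = Q.map (φ m)) →
        (r σ : Matrix (Fin n) (Fin n) (PadicAlgCl ℓ)).charpoly = Q.map (Integers E).subtype) ∧
      (∀ (σ : GK K) (Q : (Integers E)[X]),
        (∃ᶠ m in atTop, ∃ (g : GK K) (hg : g⁻¹ * σ * g ∈ (F m).fixingSubgroup),
          aeval (ρ m ⟨g⁻¹ * σ * g, hg⟩ : Matrix (Fin n) (Fin n) (R m)) (Q.map (φ m)) = 0) →
        aeval (r σ : Matrix (Fin n) (Fin n) (PadicAlgCl ℓ)) (Q.map (Integers E).subtype) = 0) := by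
  refine Pool.Agent.Helper12.TR.torsion_patching (K := K) (n := n) E P
    (fun m => (F m).fixingSubgroup) (fun m => ?_) (fun N hN hNo => ?_) R φ hR hφ ρ hρ c hT
    (fun m m' => ?_)
  · have := hfin m
    exact IntermediateField.fixingSubgroup_isOpen (F m)
  · obtain ⟨M, hM1, hM2, hM3⟩ := Pool.Agent.X289.TF.exists_field N hN hNo
    filter_upwards [hF M hM1 hM2] with m hm
    have := hfin m
    have := hM2
    rw [← hM3]
    exact Pool.Agent.X289.TF.gen_of_inf (F m) M hm
  · rw [← IntermediateField.finrank_eq_fixingSubgroup_index,
      ← IntermediateField.finrank_eq_fixingSubgroup_index]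
    exact hc m m'

end Pool.Agent.Results.MP_ef641d_nt.TorsionPatching
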